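import Mathlib

set_option autoImplicit false

namespace Pool.Agent.Results.MP_8484b9_co.PlateauTruncatedK7

open Finset

/-- `c` is a `d`-distinguishing colouring of `G`: the identity is the only automorphism of `G` that
preserves every colour class. -/
def IsDistinguishing {V : Type} (G : SimpleGraph V) {d : ℕ} (c : V → Fin d) : Prop :=
  ∀ φ : G ≃g G, (∀ v, c (φ v) = c v) → ∀ v, φ v = v

/-- `S` is a fixing set: the identity is the only automorphism fixing every vertex of `S`. -/
def IsFixingSet {V : Type} (G : SimpleGraph V) (S : Finset V) : Prop :=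
  ∀ φ : G ≃g G, (∀ v ∈ S, φ v = v) → ∀ v, φ v = v

/-- distinguishing number `D(G)` -/
noncomputable def distNumber {V : Type} (G : SimpleGraph V) : ℕ :=
  sInf {d : ℕ | ∃ c : V → Fin d, IsDistinguishing G c}

/-- fixing number `Fix(G)` -/
noncomputable def fixNumber {V : Type} (G : SimpleGraph V) : ℕ :=
  sInf {k : ℕ | ∃ S : Finset V, IsFixingSet G S ∧ S.card = k}

/-- paint cost `ρ^d(G)`: least `|V(G) \ C|` over all `d`-distinguishing colourings `c` and all colour
classes `C = c⁻¹(i)` of `c` -/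
noncomputable def paintCost {V : Type} [Fintype V] (G : SimpleGraph V) (d : ℕ) : ℕ :=
  sInf {m : ℕ | ∃ c : V → Fin d, IsDistinguishing G c ∧
    ∃ i : Fin d, (univ.filter (fun v => c v ≠ i)).card = m}

/-- frugal distinguishing number `F(G)`: least `d ≥ D(G)` with `ρ^d(G) = Fix(G)` -/
noncomputable def frugalNumber {V : Type} [Fintype V] (G : SimpleGraph V) : ℕ :=
  sInf {d : ℕ | distNumber G ≤ d ∧ paintCost G d = fixNumber G}

/-! ### The truncated complete graph on seven vertices -/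

/-- half-edges of `K_7` -/
abbrev HE : Type := {p : Fin 7 × Fin 7 // p.1 ≠ p.2}

/-- the truncation of `K_7` -/
def TK : SimpleGraph HE where
  Adj p q := (p.1.1 = q.1.1 ∧ p.1.2 ≠ q.1.2) ∨ (p.1.1 = q.1.2 ∧ p.1.2 = q.1.1)
  symm := ⟨by
    rintro p q (⟨h1, h2⟩ | ⟨h1, h2⟩)
    · exact Or.inl ⟨h1.symm, h2.symm⟩
    · exact Or.inr ⟨h2.symm, h1.symm⟩⟩
  loopless := ⟨by
    rintro p (⟨_, h2⟩ | ⟨h1, _⟩)
    · exact h2 rfl
    · exact p.2 h1⟩

/-- the half-edge `(i,j)` -/
def he (i j : Fin 7) (h : i ≠ j) : HE := ⟨(i, j), h⟩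

/-- reversal of a half-edge -/
def rev (p : HE) : HE := ⟨(p.1.2, p.1.1), fun h => p.2 h.symm⟩

lemma exists_avoid3 (i j k : Fin 7) : ∃ l : Fin 7, l ≠ i ∧ l ≠ j ∧ l ≠ k := by
  revert i j k; decide

/-- two half-edges have the same tail iff they are equal or adjacent with a common neighbour -/
lemma tail_iff (p q : HE) :
    p.1.1 = q.1.1 ↔ (p = q ∨ (TK.Adj p q ∧ ∃ r, TK.Adj p r ∧ TK.Adj q r)) := by
  constructor
  · intro h
    by_cases hpq : p.1.2 = q.1.2
    · left
      exact Subtype.ext (Prod.ext h hpq)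
    · right
      refine ⟨Or.inl ⟨h, hpq⟩, ?_⟩
      obtain ⟨l, h1, h2, h3⟩ := exists_avoid3 p.1.1 p.1.2 q.1.2
      exact ⟨he p.1.1 l h1.symm, Or.inl ⟨rfl, h2.symm⟩, Or.inl ⟨h.symm, h3.symm⟩⟩
  · rintro (h | ⟨h, r, hr1, hr2⟩)
    · rw [h]
    · rcases h with ⟨h1, _⟩ | ⟨h1, h2⟩
      · exact h1
      · exfalso
        have hp := p.2
        have hq := q.2
        have hr := r.2
        rcases hr1 with ⟨h3, h4⟩ | ⟨h3, h4⟩
        · rcases hr2 with ⟨h5, h6⟩ | ⟨h5, h6⟩
          · exact hp (by rw [h3, ← h5, ← h2])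
          · exact h4 (by rw [h2, h5])
        · rcases hr2 with ⟨h5, h6⟩ | ⟨h5, h6⟩
          · exact h6 (by rw [← h1, h3])
          · exact hp (by rw [h3, ← h6, ← h1, h3, ← h6, ← h1] at *; exact absurd (h2.trans h5) (by
              intro h7
              exact hr (by rw [← h7, ← h4])))

lemma tail_map (φ : TK ≃g TK) (p q : HE) (h : p.1.1 = q.1.1) : (φ p).1.1 = (φ q).1.1 := by
  rw [tail_iff] at h ⊢
  rcases h with h | ⟨h, r, h1, h2⟩
  · left; rw [h]
  · right
    exact ⟨φ.map_adj_iff.2 h, φ r, φ.map_adj_iff.2 h1, φ.map_adj_iff.2 h2⟩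

lemma tail_map_iff (φ : TK ≃g TK) (p q : HE) : (φ p).1.1 = (φ q).1.1 ↔ p.1.1 = q.1.1 := by
  constructor
  · intro h
    have := tail_map φ.symm (φ p) (φ q) h
    simpa using this
  · exact tail_map φ p q

lemma rev_map (φ : TK ≃g TK) (p : HE) : φ (rev p) = rev (φ p) := by
  have h1 : TK.Adj p (rev p) := Or.inr ⟨rfl, rfl⟩
  have h2 : TK.Adj (φ p) (φ (rev p)) := φ.map_adj_iff.2 h1
  rcases h2 with ⟨h3, _⟩ | ⟨h3, h4⟩
  · exact absurd ((tail_map_iff φ p (rev p)).1 h3) p.2
  · exact Subtype.ext (Prod.ext h4.symm h3.symm)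

lemma exists_ne7 (i : Fin 7) : ∃ j : Fin 7, i ≠ j := by
  revert i; decide

/-- every automorphism of `TK` comes from an injective self-map of the seven points -/
lemma aut_form (φ : TK ≃g TK) : ∃ σ : Fin 7 → Fin 7, Function.Injective σ ∧
    ∀ p : HE, (φ p).1 = (σ p.1.1, σ p.1.2) := by
  choose f hf using exists_ne7
  refine ⟨fun i => (φ (he i (f i) (hf i))).1.1, ?_, ?_⟩
  · intro i j hij
    exact (tail_map_iff φ _ _).1 hij
  · intro p
    apply Prod.ext
    · exact tail_map φ p _ rfl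
    · have h := rev_map φ p
      have h2 : (φ p).1.2 = (φ (rev p)).1.1 := by rw [h]; rfl
      rw [h2]
      exact tail_map φ (rev p) _ rfl

/-- the automorphism of `TK` induced by a permutation of the seven points -/
def autOf (σ : Equiv.Perm (Fin 7)) : TK ≃g TK where
  toFun p := ⟨(σ p.1.1, σ p.1.2), fun h => p.2 (σ.injective h)⟩
  invFun p := ⟨(σ.symm p.1.1, σ.symm p.1.2), fun h => p.2 (σ.symm.injective h)⟩
  left_inv p := by apply Subtype.ext; simp
  right_inv p := by apply Subtype.ext; simp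
  map_rel_iff' := by
    intro p q
    simp [TK, σ.injective.eq_iff]

lemma autOf_apply (σ : Equiv.Perm (Fin 7)) (p : HE) : (autOf σ p).1 = (σ p.1.1, σ p.1.2) := rfl

/-- if a nontrivial permutation maps the non-background half-edges to themselves, preserving colours,
then the colouring is not distinguishing -/
lemma not_dist {d : ℕ} (c : HE → Fin d) (i₀ : Fin d) (σ : Equiv.Perm (Fin 7)) (a : Fin 7)
    (ha : σ a ≠ a) (h : ∀ p : HE, c p ≠ i₀ → c (autOf σ p) = c p) : ¬ IsDistinguishing TK c := by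
  intro hd
  classical
  set T : Finset HE := univ.filter (fun p => c p ≠ i₀) with hT
  have hmaps : ∀ p ∈ T, autOf σ p ∈ T := by
    intro p hp
    rw [hT, mem_filter] at hp ⊢
    refine ⟨mem_univ _, ?_⟩
    rw [h p hp.2]; exact hp.2
  have himg : T.image (autOf σ) = T := by
    apply eq_of_subset_of_card_le
    · intro q hq
      obtain ⟨p, hp, rfl⟩ := mem_image.1 hq
      exact hmaps p hp
    · rw [card_image_of_injective _ (autOf σ).injective]
  have hpres : ∀ p, c (autOf σ p) = c p := by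
    intro p
    by_cases hp : c p = i₀
    · have : autOf σ p ∉ T := by
        intro hq
        rw [← himg] at hq
        obtain ⟨q, hq1, hq2⟩ := mem_image.1 hq
        have := (autOf σ).injective hq2
        rw [this, hT, mem_filter] at hq1
        exact hq1.2 hp
      rw [hT, mem_filter] at this
      have h3 : c (autOf σ p) = i₀ := by
        by_contra h4
        exact this ⟨mem_univ _, h4⟩
      rw [h3, hp]
    · exact h p hp
  obtain ⟨b, hb⟩ := exists_ne7 a
  have := hd (autOf σ) hpres (he a b hb)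
  have h2 := congrArg (fun q : HE => q.1.1) this
  exact ha h2

/-- points covered by a set of half-edges -/
def cov (T : Finset HE) : Finset (Fin 7) := T.biUnion (fun p => {p.1.1, p.1.2})

lemma mem_cov {T : Finset HE} {p : HE} (hp : p ∈ T) : p.1.1 ∈ cov T ∧ p.1.2 ∈ cov T := by
  constructor
  · exact mem_biUnion.2 ⟨p, hp, by simp⟩
  · exact mem_biUnion.2 ⟨p, hp, by simp⟩

lemma cov_card_le (T : Finset HE) : (cov T).card ≤ 2 * T.card := by
  rw [cov, mul_comm]
  exact card_biUnion_le_card_mul _ _ _ (fun p _ => card_le_two)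

lemma exists_two_uncovered {T : Finset HE} (h : (cov T).card ≤ 5) :
    ∃ a b : Fin 7, a ≠ b ∧ a ∉ cov T ∧ b ∉ cov T := by
  have h1 : 1 < ((cov T)ᶜ).card := by
    rw [card_compl, Fintype.card_fin]; omega
  obtain ⟨a, ha, b, hb, hab⟩ := one_lt_card.1 h1
  exact ⟨a, b, hab, by simpa using ha, by simpa using hb⟩

lemma swap_fix {T : Finset HE} {a b : Fin 7} (ha : a ∉ cov T) (hb : b ∉ cov T) {p : HE}
    (hp : p ∈ T) : autOf (Equiv.swap a b) p = p := by
  have h := mem_cov hp
  apply Subtype.ext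
  rw [autOf_apply]
  apply Prod.ext
  · apply Equiv.swap_apply_of_ne_of_ne
    · rintro rfl; exact ha h.1
    · rintro rfl; exact hb h.1
  · apply Equiv.swap_apply_of_ne_of_ne
    · rintro rfl; exact ha h.2
    · rintro rfl; exact hb h.2

lemma not_dist_small {d : ℕ} (c : HE → Fin d) (i₀ : Fin d)
    (h : (cov (univ.filter (fun p => c p ≠ i₀))).card ≤ 5) : ¬ IsDistinguishing TK c := by
  obtain ⟨a, b, hab, ha, hb⟩ := exists_two_uncovered h
  apply not_dist c i₀ (Equiv.swap a b) a
  · rw [Equiv.swap_apply_left]; exact hab.symm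
  · intro p hp
    rw [swap_fix ha hb (mem_filter.2 ⟨mem_univ _, hp⟩)]

/-- two half-edges share no point -/
def Disj (p q : HE) : Prop :=
  p.1.1 ≠ q.1.1 ∧ p.1.1 ≠ q.1.2 ∧ p.1.2 ≠ q.1.1 ∧ p.1.2 ≠ q.1.2

lemma Disj.symm' {p q : HE} (h : Disj p q) : Disj q p :=
  ⟨h.1.symm, h.2.2.1.symm, h.2.1.symm, h.2.2.2.symm⟩

/-- the permutation exchanging two half-edges -/
def exch (p q : HE) : Equiv.Perm (Fin 7) := Equiv.swap p.1.1 q.1.1 * Equiv.swap p.1.2 q.1.2

lemma exch_left {p q : HE} (h : Disj p q) : autOf (exch p q) p = q := by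
  obtain ⟨h1, h2, h3, h4⟩ := h
  have hp := p.2
  have hq := q.2
  apply Subtype.ext
  rw [autOf_apply]
  apply Prod.ext
  · show (exch p q) p.1.1 = q.1.1
    rw [exch, Equiv.Perm.mul_apply, Equiv.swap_apply_of_ne_of_ne hp h2, Equiv.swap_apply_left]
  · show (exch p q) p.1.2 = q.1.2
    rw [exch, Equiv.Perm.mul_apply, Equiv.swap_apply_left,
      Equiv.swap_apply_of_ne_of_ne h2.symm hq.symm]

lemma exch_right {p q : HE} (h : Disj p q) : autOf (exch p q) q = p := by
  obtain ⟨h1, h2, h3, h4⟩ := h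
  have hp := p.2
  have hq := q.2
  apply Subtype.ext
  rw [autOf_apply]
  apply Prod.ext
  · show (exch p q) q.1.1 = p.1.1
    rw [exch, Equiv.Perm.mul_apply, Equiv.swap_apply_of_ne_of_ne h3.symm hq,
      Equiv.swap_apply_right]
  · show (exch p q) q.1.2 = p.1.2
    rw [exch, Equiv.Perm.mul_apply, Equiv.swap_apply_right,
      Equiv.swap_apply_of_ne_of_ne hp.symm h3]

lemma exch_other {p q r : HE} (hpr : Disj p r) (hqr : Disj q r) : autOf (exch p q) r = r := by
  apply Subtype.ext
  rw [autOf_apply]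
  apply Prod.ext
  · show (exch p q) r.1.1 = r.1.1
    rw [exch, Equiv.Perm.mul_apply, Equiv.swap_apply_of_ne_of_ne hpr.2.2.1.symm hqr.2.2.1.symm,
      Equiv.swap_apply_of_ne_of_ne hpr.1.symm hqr.1.symm]
  · show (exch p q) r.1.2 = r.1.2
    rw [exch, Equiv.Perm.mul_apply, Equiv.swap_apply_of_ne_of_ne hpr.2.2.2.symm hqr.2.2.2.symm,
      Equiv.swap_apply_of_ne_of_ne hpr.2.1.symm hqr.2.1.symm]

lemma exch_ne {p q : HE} (h : Disj p q) : exch p q p.1.1 ≠ p.1.1 := by
  have h2 := congrArg (fun r : HE => r.1.1) (exch_left h)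
  have h3 : exch p q p.1.1 = q.1.1 := h2
  rw [h3]; exact h.1.symm

lemma not_dist_pair {d : ℕ} (c : HE → Fin d) (i₀ : Fin d) (p q r : HE)
    (hT : ∀ s, c s ≠ i₀ → s = p ∨ s = q ∨ s = r) (hpq : Disj p q) (hpr : Disj p r)
    (hqr : Disj q r) (hc : c p = c q) : ¬ IsDistinguishing TK c := by
  apply not_dist c i₀ (exch p q) p.1.1 (exch_ne hpq)
  intro s hs
  rcases hT s hs with rfl | rfl | rfl
  · rw [exch_left hpq, hc]
  · rw [exch_right hpq, hc]
  · rw [exch_other hpr hqr]

lemma disj_of_card {p q r : HE} (h : 6 ≤ (cov {p, q, r}).card) : Disj p q := by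
  by_contra hd
  have hsub : cov {p, q, r} ⊆ {p.1.1, p.1.2, q.1.1, q.1.2, r.1.1, r.1.2} := by
    intro x hx
    obtain ⟨s, hs, hxs⟩ := mem_biUnion.1 hx
    simp only [mem_insert, mem_singleton] at hs hxs ⊢
    rcases hs with rfl | rfl | rfl <;> rcases hxs with rfl | rfl <;> simp
  have hcard : ∀ a b c d e : Fin 7, ∀ S : Finset (Fin 7), S ⊆ {a, b, c, d, e} → S.card ≤ 5 := by
    intro a b c d e S hS
    exact (card_le_card hS).trans card_le_five
  have key : (cov {p, q, r}).card ≤ 5 := by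
    rw [Disj] at hd
    by_cases h1 : p.1.1 = q.1.1
    · apply hcard p.1.1 p.1.2 q.1.2 r.1.1 r.1.2
      refine hsub.trans ?_
      intro x hx; simp only [mem_insert, mem_singleton] at hx ⊢
      rcases hx with h | h | h | h | h | h <;> simp [h, h1]
    by_cases h2 : p.1.1 = q.1.2
    · apply hcard p.1.1 p.1.2 q.1.1 r.1.1 r.1.2
      refine hsub.trans ?_
      intro x hx; simp only [mem_insert, mem_singleton] at hx ⊢
      rcases hx with h | h | h | h | h | h <;> simp [h, h2]
    by_cases h3 : p.1.2 = q.1.1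
    · apply hcard p.1.1 p.1.2 q.1.2 r.1.1 r.1.2
      refine hsub.trans ?_
      intro x hx; simp only [mem_insert, mem_singleton] at hx ⊢
      rcases hx with h | h | h | h | h | h <;> simp [h, h3]
    by_cases h4 : p.1.2 = q.1.2
    · apply hcard p.1.1 p.1.2 q.1.1 r.1.1 r.1.2
      refine hsub.trans ?_
      intro x hx; simp only [mem_insert, mem_singleton] at hx ⊢
      rcases hx with h | h | h | h | h | h <;> simp [h, h4]
    exact absurd ⟨h1, h2, h3, h4⟩ hd
  omega

/-- with three colours at least four half-edges lie outside every colour class of a distinguishing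
colouring -/
lemma three_lower (c : HE → Fin 3) (i₀ : Fin 3) (hd : IsDistinguishing TK c) :
    4 ≤ (univ.filter (fun p => c p ≠ i₀)).card := by
  by_contra hlt
  push Not at hlt
  set T := univ.filter (fun p => c p ≠ i₀) with hT
  have h6 : 6 ≤ (cov T).card := by
    by_contra h
    have h' : (cov T).card ≤ 5 := by omega
    exact not_dist_small c i₀ (by rw [← hT]; exact h') hd
  have h3 : T.card = 3 := by
    have := cov_card_le T
    omega
  obtain ⟨p, q, r, hpq, hpr, hqr, hTe⟩ := card_eq_three.1 h3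
  rw [hTe] at h6
  have d1 : Disj p q := disj_of_card h6
  have d2 : Disj p r := by
    apply disj_of_card (r := q)
    rwa [show ({p, r, q} : Finset HE) = {p, q, r} by ext; simp; tauto]
  have d3 : Disj q r := by
    apply disj_of_card (r := p)
    rwa [show ({q, r, p} : Finset HE) = {p, q, r} by ext; simp; tauto]
  have hmem : ∀ s, c s ≠ i₀ → s = p ∨ s = q ∨ s = r := by
    intro s hs
    have : s ∈ T := mem_filter.2 ⟨mem_univ _, hs⟩
    rw [hTe] at this
    simpa using this
  have hcp : c p ≠ i₀ := by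
    have : p ∈ T := by rw [hTe]; simp
    exact (mem_filter.1 this).2
  have hcq : c q ≠ i₀ := by
    have : q ∈ T := by rw [hTe]; simp
    exact (mem_filter.1 this).2
  have hcr : c r ≠ i₀ := by
    have : r ∈ T := by rw [hTe]; simp
    exact (mem_filter.1 this).2
  have pig : ∀ i a b e : Fin 3, a ≠ i → b ≠ i → e ≠ i → a = b ∨ a = e ∨ b = e := by decide
  rcases pig i₀ (c p) (c q) (c r) hcp hcq hcr with h | h | h
  · exact not_dist_pair c i₀ p q r hmem d1 d2 d3 h hd
  · exact not_dist_pair c i₀ p r q (fun s hs => by rcases hmem s hs with h | h | h <;> simp [h])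
      d2 d1 d3.symm' h hd
  · exact not_dist_pair c i₀ q r p (fun s hs => by rcases hmem s hs with h | h | h <;> simp [h])
      d3 d1.symm' d2.symm' h hd

lemma gen_lower {d : ℕ} (c : HE → Fin d) (i₀ : Fin d) (hd : IsDistinguishing TK c) :
    3 ≤ (univ.filter (fun p => c p ≠ i₀)).card := by
  by_contra hlt
  push Not at hlt
  have := cov_card_le (univ.filter (fun p => c p ≠ i₀))
  exact not_dist_small c i₀ (by omega) hd

lemma fix_lower (S : Finset HE) (hS : IsFixingSet TK S) : 3 ≤ S.card := by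
  by_contra hlt
  push Not at hlt
  have := cov_card_le S
  obtain ⟨a, b, hab, ha, hb⟩ := exists_two_uncovered (T := S) (by omega)
  have h := hS (autOf (Equiv.swap a b)) (fun p hp => swap_fix ha hb hp)
  have h2 := congrArg (fun q : HE => q.1.1) (h (he a b hab))
  have h3 : Equiv.swap a b a = a := h2
  rw [Equiv.swap_apply_left] at h3
  exact hab h3.symm

/-! ### Explicit colourings -/

/-- four half-edges: an isolated one and a directed path on four points -/
def col2 (d : ℕ) (hd : 2 ≤ d) (p : HE) : Fin d :=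
  if p.1 = (0, 1) ∨ p.1 = (2, 3) ∨ p.1 = (3, 4) ∨ p.1 = (4, 5) then ⟨1, by omega⟩ else ⟨0, by omega⟩

lemma col2_one_iff (d : ℕ) (hd : 2 ≤ d) (p : HE) : col2 d hd p ≠ ⟨0, by omega⟩ ↔
    (p.1 = (0, 1) ∨ p.1 = (2, 3) ∨ p.1 = (3, 4) ∨ p.1 = (4, 5)) := by
  unfold col2
  split_ifs with h
  · simp [h]
  · simp [h]

lemma arc_path : ∀ a b e f : Fin 7,
    ((a, b) = ((0, 1) : Fin 7 × Fin 7) ∨ (a, b) = (2, 3) ∨ (a, b) = (3, 4) ∨ (a, b) = (4, 5)) →
    ((b, e) = ((0, 1) : Fin 7 × Fin 7) ∨ (b, e) = (2, 3) ∨ (b, e) = (3, 4) ∨ (b, e) = (4, 5)) →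
    ((e, f) = ((0, 1) : Fin 7 × Fin 7) ∨ (e, f) = (2, 3) ∨ (e, f) = (3, 4) ∨ (e, f) = (4, 5)) →
    a = 2 ∧ b = 3 ∧ e = 4 ∧ f = 5 := by
  intro a b e f h1 h2 h3
  simp only [Prod.mk.injEq] at h1 h2 h3
  omega

lemma col2_dist (d : ℕ) (hd : 2 ≤ d) : IsDistinguishing TK (col2 d hd) := by
  intro φ hφ
  obtain ⟨σ, hσ, hform⟩ := aut_form φ
  have key : ∀ i j : Fin 7, ∀ h : i ≠ j,
      ((i, j) = ((0, 1) : Fin 7 × Fin 7) ∨ (i, j) = (2, 3) ∨ (i, j) = (3, 4) ∨ (i, j) = (4, 5)) →
      ((σ i, σ j) = ((0, 1) : Fin 7 × Fin 7) ∨ (σ i, σ j) = (2, 3) ∨ (σ i, σ j) = (3, 4) ∨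
        (σ i, σ j) = (4, 5)) := by
    intro i j h hij
    have h1 := (col2_one_iff d hd (he i j h)).2 hij
    rw [← hφ (he i j h)] at h1
    have h2 := (col2_one_iff d hd _).1 h1
    rw [hform] at h2
    exact h2
  have k01 := key 0 1 (by decide) (by simp)
  have k23 := key 2 3 (by decide) (by simp)
  have k34 := key 3 4 (by decide) (by simp)
  have k45 := key 4 5 (by decide) (by simp)
  obtain ⟨e2, e3, e4, e5⟩ := arc_path _ _ _ _ k23 k34 k45
  have n02 : σ 0 ≠ σ 2 := fun h => by have := hσ h; revert this; decide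
  have n03 : σ 0 ≠ σ 3 := fun h => by have := hσ h; revert this; decide
  have n04 : σ 0 ≠ σ 4 := fun h => by have := hσ h; revert this; decide
  rw [e2] at n02
  rw [e3] at n03
  rw [e4] at n04
  simp only [Prod.mk.injEq] at k01
  have e01 : σ 0 = 0 ∧ σ 1 = 1 := by
    rcases k01 with h | h | h | h
    · exact h
    · exact absurd h.1 n02
    · exact absurd h.1 n03
    · exact absurd h.1 n04
  have n : ∀ j : Fin 7, j ≠ 6 → σ 6 ≠ σ j := fun j hj h => hj (hσ h).symm
  have n0 := n 0 (by decide)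
  have n1 := n 1 (by decide)
  have n2 := n 2 (by decide)
  have n3 := n 3 (by decide)
  have n4 := n 4 (by decide)
  have n5 := n 5 (by decide)
  rw [e01.1] at n0
  rw [e01.2] at n1
  rw [e2] at n2
  rw [e3] at n3
  rw [e4] at n4
  rw [e5] at n5
  have e6 : σ 6 = 6 := by omega
  have hid : ∀ i : Fin 7, σ i = i := by
    intro i
    fin_cases i
    · exact e01.1
    · exact e01.2
    · exact e2
    · exact e3
    · exact e4
    · exact e5
    · exact e6
  intro p
  apply Subtype.ext
  rw [hform, hid, hid]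

lemma col2_card (d : ℕ) (hd : 2 ≤ d) :
    (univ.filter (fun p => col2 d hd p ≠ ⟨0, by omega⟩)).card = 4 := by
  have h : (univ.filter (fun p : HE => col2 d hd p ≠ ⟨0, by omega⟩)) =
      univ.filter (fun p : HE => p.1 = (0, 1) ∨ p.1 = (2, 3) ∨ p.1 = (3, 4) ∨ p.1 = (4, 5)) := by
    apply filter_congr
    intro p _
    exact col2_one_iff d hd p
  rw [h]
  decide

/-- a self-map of the seven points fixing six of them is the identity -/
lemma id_of_fix6 (σ : Fin 7 → Fin 7) (hσ : Function.Injective σ) (e0 : σ 0 = 0) (e1 : σ 1 = 1)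
    (e2 : σ 2 = 2) (e3 : σ 3 = 3) (e4 : σ 4 = 4) (e5 : σ 5 = 5) : ∀ i, σ i = i := by
  have n : ∀ j : Fin 7, j ≠ 6 → σ 6 ≠ σ j := fun j hj h => hj (hσ h).symm
  have n0 := n 0 (by decide)
  have n1 := n 1 (by decide)
  have n2 := n 2 (by decide)
  have n3 := n 3 (by decide)
  have n4 := n 4 (by decide)
  have n5 := n 5 (by decide)
  rw [e0] at n0
  rw [e1] at n1
  rw [e2] at n2
  rw [e3] at n3
  rw [e4] at n4
  rw [e5] at n5
  have e6 : σ 6 = 6 := by omega
  intro i
  fin_cases i
  · exact e0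
  · exact e1
  · exact e2
  · exact e3
  · exact e4
  · exact e5
  · exact e6

/-- three disjoint half-edges with three different colours -/
def col4 (p : HE) : Fin 4 :=
  if p.1 = (0, 1) then 1 else if p.1 = (2, 3) then 2 else if p.1 = (4, 5) then 3 else 0

lemma col4_dist : IsDistinguishing TK col4 := by
  intro φ hφ
  obtain ⟨σ, hσ, hform⟩ := aut_form φ
  have k1 : (σ 0, σ 1) = ((0, 1) : Fin 7 × Fin 7) := by
    have h := hφ (he 0 1 (by decide))
    have h1 : col4 (he 0 1 (by decide)) = 1 := by decide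
    rw [h1, col4, hform] at h
    by_contra hne
    have hne' : ¬ ((σ (he 0 1 (by decide)).1.1, σ (he 0 1 (by decide)).1.2) = ((0, 1) : Fin 7 × Fin 7)) :=
      hne
    rw [if_neg hne'] at h
    split_ifs at h
    all_goals exact absurd h (by decide)
  have k2 : (σ 2, σ 3) = ((2, 3) : Fin 7 × Fin 7) := by
    have h := hφ (he 2 3 (by decide))
    have h1 : col4 (he 2 3 (by decide)) = 2 := by decide
    rw [h1, col4, hform] at h
    by_contra hne
    have hne' : ¬ ((σ (he 2 3 (by decide)).1.1, σ (he 2 3 (by decide)).1.2) = ((2, 3) : Fin 7 × Fin 7)) :=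
      hne
    rw [if_neg hne'] at h
    split_ifs at h
    all_goals exact absurd h (by decide)
  have k3 : (σ 4, σ 5) = ((4, 5) : Fin 7 × Fin 7) := by
    have h := hφ (he 4 5 (by decide))
    have h1 : col4 (he 4 5 (by decide)) = 3 := by decide
    rw [h1, col4, hform] at h
    by_contra hne
    have hne' : ¬ ((σ (he 4 5 (by decide)).1.1, σ (he 4 5 (by decide)).1.2) = ((4, 5) : Fin 7 × Fin 7)) :=
      hne
    rw [if_neg hne'] at h
    split_ifs at h
    all_goals exact absurd h (by decide)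
  simp only [Prod.mk.injEq] at k1 k2 k3
  have hid := id_of_fix6 σ hσ k1.1 k1.2 k2.1 k2.2 k3.1 k3.2
  intro p
  apply Subtype.ext
  rw [hform, hid, hid]

lemma col4_card : (univ.filter (fun p => col4 p ≠ 0)).card = 3 := by
  decide

/-- three disjoint half-edges form a fixing set -/
lemma fix_upper : IsFixingSet TK {he 0 1 (by decide), he 2 3 (by decide), he 4 5 (by decide)} := by
  intro φ hφ
  obtain ⟨σ, hσ, hform⟩ := aut_form φ
  have k1 := hφ (he 0 1 (by decide)) (by simp)
  have k2 := hφ (he 2 3 (by decide)) (by simp)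
  have k3 := hφ (he 4 5 (by decide)) (by simp)
  have k1' := (hform (he 0 1 (by decide))).symm.trans (congrArg Subtype.val k1)
  have k2' := (hform (he 2 3 (by decide))).symm.trans (congrArg Subtype.val k2)
  have k3' := (hform (he 4 5 (by decide))).symm.trans (congrArg Subtype.val k3)
  simp only [he, Prod.mk.injEq] at k1' k2' k3'
  have hid := id_of_fix6 σ hσ k1'.1 k1'.2 k2'.1 k2'.2 k3'.1 k3'.2
  intro p
  apply Subtype.ext
  rw [hform, hid, hid]

lemma distNumber_eq : distNumber TK = 2 := by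
  apply le_antisymm
  · exact Nat.sInf_le ⟨col2 2 le_rfl, col2_dist 2 le_rfl⟩
  · refine le_csInf ?_ ?_
    · exact ⟨2, col2 2 le_rfl, col2_dist 2 le_rfl⟩
    rintro d ⟨c, hc⟩
    by_contra hlt
    push Not at hlt
    have h0 : d ≠ 0 := by
      rintro rfl
      exact (c (he 0 1 (by decide))).elim0
    have h1 : d = 1 := by omega
    subst h1
    have := three_lower (fun p => (⟨0, by omega⟩ : Fin 3)) ⟨0, by omega⟩ (by
      intro φ _
      exact hc φ (fun v => Subsingleton.elim _ _))
    simp at this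

lemma fixNumber_eq : fixNumber TK = 3 := by
  apply le_antisymm
  · refine Nat.sInf_le ⟨_, fix_upper, ?_⟩
    decide
  · refine le_csInf ?_ ?_
    · exact ⟨_, _, fix_upper, rfl⟩
    rintro k ⟨S, hS, rfl⟩
    exact fix_lower S hS

lemma paintCost_two : paintCost TK 2 = 4 := by
  apply le_antisymm
  · exact Nat.sInf_le ⟨col2 2 le_rfl, col2_dist 2 le_rfl, _, col2_card 2 le_rfl⟩
  · refine le_csInf ?_ ?_
    · exact ⟨4, col2 2 le_rfl, col2_dist 2 le_rfl, _, col2_card 2 le_rfl⟩
    rintro m ⟨c, hc, i, rfl⟩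
    have h := three_lower (fun p => (c p).castLE (by omega)) (i.castLE (by omega)) (by
      intro φ hφ
      exact hc φ (fun v => (Fin.castLE_injective (by omega : 2 ≤ 3)) (hφ v)))
    have h2 : (univ.filter (fun p => (c p).castLE (by omega : 2 ≤ 3) ≠ i.castLE (by omega))) =
        univ.filter (fun p => c p ≠ i) := by
      apply filter_congr
      intro p _
      rw [ne_eq, (Fin.castLE_injective (by omega : 2 ≤ 3)).eq_iff]
    rw [h2] at h
    exact h

lemma paintCost_three : paintCost TK 3 = 4 := by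
  apply le_antisymm
  · exact Nat.sInf_le ⟨col2 3 (by omega), col2_dist 3 (by omega), _, col2_card 3 (by omega)⟩
  · refine le_csInf ?_ ?_
    · exact ⟨4, col2 3 (by omega), col2_dist 3 (by omega), _, col2_card 3 (by omega)⟩
    rintro m ⟨c, hc, i, rfl⟩
    exact three_lower c i hc

lemma paintCost_four : paintCost TK 4 = 3 := by
  apply le_antisymm
  · exact Nat.sInf_le ⟨col4, col4_dist, _, col4_card⟩
  · refine le_csInf ?_ ?_
    · exact ⟨3, col4, col4_dist, _, col4_card⟩
    rintro m ⟨c, hc, i, rfl⟩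
    exact gen_lower c i hc

lemma frugalNumber_eq : frugalNumber TK = 4 := by
  have hmem : distNumber TK ≤ 4 ∧ paintCost TK 4 = fixNumber TK := by
    rw [distNumber_eq, paintCost_four, fixNumber_eq]; omega
  apply le_antisymm
  · exact Nat.sInf_le hmem
  · refine le_csInf ?_ ?_
    · exact ⟨4, hmem⟩
    rintro d ⟨h1, h2⟩
    rw [distNumber_eq] at h1
    rw [fixNumber_eq] at h2
    by_contra hlt
    have : d = 2 ∨ d = 3 := by omega
    rcases this with rfl | rfl
    · rw [paintCost_two] at h2; omega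
    · rw [paintCost_three] at h2; omega

/-- There is a finite simple graph `G` with `D(G) = 2`, `ρ²(G) = ρ³(G) = 4`, `ρ⁴(G) = Fix(G) = 3` and
`F(G) = 4`: its paint cost spectrum `(2; 4, 4, 3)` repeats a value at `i = D(G) = 2`, with
`i + 1 < F(G)` and `ρ^{D(G)}(G) ≠ Fix(G)`. -/
theorem result : ∃ (V : Type) (_ : Fintype V) (G : SimpleGraph V),
    distNumber G = 2 ∧ paintCost G 2 = 4 ∧ paintCost G 3 = 4 ∧ paintCost G 4 = 3 ∧
    fixNumber G = 3 ∧ frugalNumber G = 4 :=
  ⟨HE, inferInstance, TK, distNumber_eq, paintCost_two, paintCost_three, paintCost_four,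
    fixNumber_eq, frugalNumber_eq⟩

end Pool.Agent.Results.MP_8484b9_co.PlateauTruncatedK7
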